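import Pool.Agent.Lib.MP_c7fa02_an.Assembly
import Pool.Agent.Lib.MP_c7fa02_an.SelfInv

set_option autoImplicit false

namespace Pool.Agent.Results.MP_c7fa02_an.DiscInImage

open Polynomial ComplexConjugate

/-- Let `P` be a nonconstant complex polynomial that is self-inversive: every zero `ζ` is nonzero
and `1 / ζ` is a zero of the same multiplicity (the definition of the problem), or every zero `ζ`
is nonzero and `1 / conj ζ` is a zero of the same multiplicity (the other usual convention).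
Let `A` be the largest modulus of a coefficient of `P`. Then the image of the open unit disc
under `P` contains an open disc of radius `A`. -/
theorem result (P : ℂ[X]) (hdeg : 0 < P.natDegree)
    (hself : (∀ ζ : ℂ, P.IsRoot ζ → ζ ≠ 0 ∧ P.rootMultiplicity ζ⁻¹ = P.rootMultiplicity ζ) ∨
      (∀ ζ : ℂ, P.IsRoot ζ → ζ ≠ 0 ∧ P.rootMultiplicity (conj ζ)⁻¹ = P.rootMultiplicity ζ))
    (A : ℝ) (hA : IsGreatest (Set.range fun k : ℕ => ‖P.coeff k‖) A) :
    ∃ w₀ : ℂ, Metric.ball w₀ A ⊆ (fun z : ℂ => P.eval z) '' Metric.ball (0 : ℂ) 1 := by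
  have hP : P ≠ 0 := by
    intro h; rw [h, natDegree_zero] at hdeg; exact lt_irrefl _ hdeg
  have hsym : ∀ k, k ≤ P.natDegree → ‖P.coeff k‖ = ‖P.coeff (P.natDegree - k)‖ := by
    rcases hself with h | h
    · exact Pool.Agent.Lib.MP_c7fa02_an.coeff_sym (RingHom.id ℂ) (fun _ => rfl) (fun _ => rfl) hP h
    · exact Pool.Agent.Lib.MP_c7fa02_an.coeff_sym (starRingEnd ℂ) (fun a => Complex.conj_conj a)
        (fun a => RCLike.norm_conj a) hP h
  obtain ⟨⟨k, hk⟩, hmax⟩ := hA
  have hkA : ‖P.coeff k‖ = A := hk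
  have hAn : ‖P.coeff P.natDegree‖ ≤ A := hmax ⟨P.natDegree, rfl⟩
  have hpos : 0 < ‖P.coeff P.natDegree‖ := by
    rw [coeff_natDegree, norm_pos_iff]
    exact leadingCoeff_ne_zero.mpr hP
  have hkn : k ≤ P.natDegree := by
    by_contra hlt
    rw [coeff_eq_zero_of_natDegree_lt (not_le.mp hlt), norm_zero] at hkA
    linarith
  rw [← hkA]
  exact Pool.Agent.Lib.MP_c7fa02_an.exists_ball hdeg hsym hkn

end Pool.Agent.Results.MP_c7fa02_an.DiscInImage
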